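import Pool.Agent.Helper5.UN.Goals

/-!
# UN-TRD: a finite family generating (up to algebraic elements) as many independent elements
-/

set_option autoImplicit false

namespace Pool.Agent.Helper59.UN

open Pool.Agent.Helper5.UN

open scoped IntermediateField.algebraAdjoinAdjoin in
theorem alg_of_adjoin {K Ω : Type} [Field K] [Field Ω] [Algebra K Ω] (S : Set Ω) (z : Ω)
    (h : IsAlgebraic (IntermediateField.adjoin K S) z) : IsAlgebraic (Algebra.adjoin K S) z := by
  have : IsScalarTower (Algebra.adjoin K S) (IntermediateField.adjoin K S) Ω :=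
    IsScalarTower.of_algebraMap_eq (fun _ => rfl)
  exact (IsFractionRing.isAlgebraic_iff (Algebra.adjoin K S) (IntermediateField.adjoin K S) Ω).2 h

/-- packet TRD -/
theorem gTRD : G_TRD := by
  intro K Ω _ _ _ σ _ ζ η hζ halg
  have hM : (AlgebraicIndependent.matroid K Ω).Indep (Set.range ζ) := by
    rw [AlgebraicIndependent.matroid_indep_iff]
    exact hζ.to_subtype_range
  have hsub : Set.range ζ ⊆ (AlgebraicIndependent.matroid K Ω).closure (Set.range η) := by
    rw [AlgebraicIndependent.matroid_closure_eq]
    rintro _ ⟨i, rfl⟩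
    exact alg_of_adjoin _ _ (halg i)
  have h1 : (Set.range ζ).encard ≤ (AlgebraicIndependent.matroid K Ω).eRk (Set.range η) := by
    rw [← hM.eRk_eq_encard, ← Matroid.eRk_closure_eq _ (Set.range η)]
    exact Matroid.eRk_mono _ hsub
  have h2 := Matroid.eRk_le_encard (AlgebraicIndependent.matroid K Ω) (Set.range η)
  have h3 : (Set.range ζ).encard = Fintype.card σ := by
    rw [← Set.image_univ, hζ.injective.injOn.encard_image, Set.encard_univ]
    simp
  have hfin : (Set.range η).Finite := Set.finite_range η
  have h4 : (Set.range η).encard ≤ Fintype.card σ := by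
    rw [← Set.image_univ]
    refine (Set.encard_image_le _ _).trans ?_
    rw [Set.encard_univ]
    simp
  have h5 : (Set.range η).encard = Fintype.card σ := le_antisymm h4 (h3 ▸ h1.trans h2)
  have h6 : (AlgebraicIndependent.matroid K Ω).eRk (Set.range η) = (Set.range η).encard :=
    le_antisymm h2 (h5 ▸ h3 ▸ h1)
  have h7 : (AlgebraicIndependent.matroid K Ω).Indep (Set.range η) :=
    (Matroid.indep_iff_eRk_eq_encard_of_finite hfin).2 h6
  have hinj : Function.Injective η := by
    have h8 : (η '' Set.univ).encard = (Set.univ : Set σ).encard := by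
      rw [Set.image_univ, h5, Set.encard_univ]
      simp
    exact Set.injOn_univ.1 (Set.finite_univ.injOn_of_encard_image_eq h8)
  rw [AlgebraicIndependent.matroid_indep_iff] at h7
  exact (algebraicIndependent_subtype_range hinj).1 h7

end Pool.Agent.Helper59.UN
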